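import Pool.Agent.H94.LP1.M34
import Pool.Agent.H94.LP1.M42
import Pool.Agent.H94.LP1.M48
import Pool.Agent.H94.LP1.M59

/-!
# The jumps of the growth of the general dimension are rare
-/

namespace Pool.Agent.H74.CT

open MvPolynomial Pool.Agent.H18.Fat Pool.Agent.H18.Ub Pool.Agent.H22.LU

section seq

variable {t : ℕ → ℕ} {C E : ℕ}

end seq

/-- The jumps are rare. -/
theorem card_jumps {r : ℕ} (hr : 1 ≤ r) {C E : ℕ} (hC : 1 ≤ C) (hE : 1 ≤ E) {k : ℕ}
    (w : Fin k → ℕ) (t : ℕ → ℕ) (ht : ∀ j, t j = generalDim r j w - generalDim r (j - 1) w) (X : ℕ) :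
    (((Finset.range (X + 1)).filter fun j => t j < E * (t j - t (j - C))).card : ℝ) ≤
      C * (1 + E * Real.log ((X + r - 1).choose (r - 1) : ℕ)) := by
  classical
  obtain ⟨s, rfl⟩ : ∃ s, r = s + 1 := ⟨r - 1, by omega⟩
  -- the growth of the dimension
  have hgen : ∀ N : ℕ, ∃ p : Fin k → Fin (s + 1 + 1) → ℂ, (∀ l, p l 0 ≠ 0) ∧ ∀ j ≤ N,
      Module.finrank ℂ (fatForms (s + 1) j p w) = generalDim (s + 1) j w := by
    intro N
    obtain ⟨p, hp1, hp2⟩ := Pool.Agent.H18.Cub.exists_of_general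
      ((Pool.Agent.H18.Pr.general_ne_zero (s + 1) k).and
        (Pool.Agent.H18.Ub.general_all (Finset.range (N + 1)) fun j _ =>
          generalDim_spec (s + 1) j w))
    exact ⟨p, hp1, fun j hj => hp2 j (Finset.mem_range.2 (by omega))⟩
  have hmono : ∀ j, 2 * generalDim (s + 1) (j + 1) w ≤
      generalDim (s + 1) (j + 2) w + generalDim (s + 1) j w := by
    intro j
    obtain ⟨p, hp1, hp2⟩ := hgen (j + 2)
    have h1 := grow_mono (j := j) p hp1 w
    rw [hp2 j (by omega), hp2 (j + 1) (by omega), hp2 (j + 2) le_rfl] at h1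
    exact h1
  have h0 : t 0 = 0 := by
    rw [ht]
    exact Nat.sub_self _
  have hle : ∀ j, generalDim (s + 1) (j + 1) w ≤
      generalDim (s + 1) j w + (j + 1 + s).choose s := by
    intro j
    obtain ⟨p, hp1, hp2⟩ := hgen (j + 1)
    have h1 := grow_le (j := j) p hp1 w
    rw [hp2 j (by omega), hp2 (j + 1) le_rfl] at h1
    have h2 := finrank_le_mons (s + 1) (j + 1) p fun _ => 0
    have h3 : (j + (s + 1)).choose (s + 1) ≤
        Module.finrank ℂ (fatForms (s + 1) j p fun _ => 0) := by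
      have h4 := generalDim_ge (r := s + 1) (by omega) j (fun _ : Fin k => 0)
      have h5 : ∀ i : Fin k, ((0 + (s + 1) - 1).choose (s + 1) : ℤ) = 0 := by
        intro i
        rw [Nat.choose_eq_zero_of_lt (by omega)]
        rfl
      have h6 : generalDim (s + 1) j (fun _ : Fin k => 0) ≤
          Module.finrank ℂ (fatForms (s + 1) j p fun _ => 0) := Nat.sInf_le ⟨p, rfl⟩
      rw [Finset.sum_congr rfl fun i _ => h5 i, Finset.sum_const_zero] at h4
      omega
    have h4 : (j + 1 + (s + 1)).choose (s + 1) = (j + 1 + s).choose s +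
        (j + (s + 1)).choose (s + 1) := by
      have h5 : j + 1 + (s + 1) = (j + 1 + s) + 1 := by omega
      have h6 : j + (s + 1) = j + 1 + s := by omega
      rw [h5, Nat.choose_succ_succ', h6]
    omega
  have hmon1 : ∀ j, generalDim (s + 1) j w ≤ generalDim (s + 1) (j + 1) w ∧ t j ≤ t (j + 1) := by
    intro j
    induction j with
    | zero =>
      refine ⟨?_, by rw [h0]; exact Nat.zero_le _⟩
      obtain ⟨p, hp1, hp2⟩ := hgen 1
      have h1 := grow_zero (j := 0) p w
      rw [hp2 0 (by omega), hp2 (0 + 1) le_rfl] at h1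
      exact h1
    | succ j ih =>
      have h1 := hmono j
      obtain ⟨h2, -⟩ := ih
      have h3 : generalDim (s + 1) (j + 1) w ≤ generalDim (s + 1) (j + 1 + 1) w := by
        have : j + 1 + 1 = j + 2 := rfl
        rw [this]
        omega
      refine ⟨h3, ?_⟩
      rw [ht, ht]
      have h4 : j + 1 - 1 = j := rfl
      have h5 : j + 1 + 1 - 1 = j + 1 := rfl
      have h6 : j + 1 + 1 = j + 2 := rfl
      rw [h4, h5, h6]
      omega
  have hm : Monotone t := monotone_nat_of_le_succ fun j => (hmon1 j).2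
  refine (seq_jumps hm h0 hC hE X).trans ?_
  have hX : t X ≤ (X + s).choose s := by
    rcases Nat.eq_zero_or_pos X with h1 | h1
    · rw [h1, h0]
      exact Nat.zero_le _
    · obtain ⟨x, rfl⟩ : ∃ x, X = x + 1 := ⟨X - 1, by omega⟩
      have h2 := hle x
      rw [ht]
      have h3 : x + 1 - 1 = x := rfl
      rw [h3]
      omega
  have h1 : X + (s + 1) - 1 = X + s := rfl
  have h2 : s + 1 - 1 = s := rfl
  rw [h1, h2]
  have h3 := log_mono hX
  have h4 : (0 : ℝ) ≤ C := by positivity
  have h5 : (0 : ℝ) ≤ E := by positivity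
  exact mul_le_mul_of_nonneg_left (by linarith [mul_le_mul_of_nonneg_left h3 h5]) h4

end Pool.Agent.H74.CT
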